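import Pool.Agent.H38.SE.TarB

/-!
# MP_eaeaf5_lc, BBb: definability, second part
-/

set_option linter.unusedVariables false

open Ordinal Order Set
open scoped ZFSet

namespace SE.BBbAux

open SF

variable {f g h k l m : (V → Prop) → (ℕ → V) → V}

section
variable (hAF : T_AF) (hAI : T_AI) (hBa : T_BBa)
include hBa

theorem tm_pos (hf : Tm ZFm f) (hg : Tm ZFm g) : Tm ZFm (fun M v => Pos (f M v) (g M v)) :=
  Tm.at2 (F := fun _ x y => Pos x y) hBa.2.2.2.2.2.2.2.2.2.2.2.2.1 hf hg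

theorem tm_lS (hf : Tm ZFm f) : Tm ZFm (fun M v => lS (f M v)) :=
  Tm.at1 (F := fun _ x => lS x) hBa.2.2.2.2.1 hf

theorem tm_lE (hf : Tm ZFm f) : Tm ZFm (fun M v => lE (f M v)) :=
  Tm.at1 (F := fun _ x => lE x) hBa.2.2.1 hf

theorem tm_lG (hf : Tm ZFm f) : Tm ZFm (fun M v => lG (f M v)) :=
  Tm.at1 (F := fun _ x => lG x) hBa.2.2.2.1 hf

theorem tm_lY (hf : Tm ZFm f) : Tm ZFm (fun M v => lY (f M v)) :=
  Tm.at1 (F := fun _ x => lY x) hBa.2.2.2.2.2.1 hf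

theorem tm_lZ (hf : Tm ZFm f) : Tm ZFm (fun M v => lZ (f M v)) :=
  Tm.at1 (F := fun _ x => lZ x) hBa.2.2.2.2.2.2.1 hf

theorem tm_lA (hf : Tm ZFm f) : Tm ZFm (fun M v => lA (f M v)) :=
  Tm.at1 (F := fun _ x => lA x) hBa.2.2.2.2.2.2.2.1 hf

theorem tm_lB (hf : Tm ZFm f) : Tm ZFm (fun M v => lB (f M v)) :=
  Tm.at1 (F := fun _ x => lB x) hBa.2.2.2.2.2.2.2.2.1 hf

theorem dfb_le (hf : Tm ZFm f) (hg : Tm ZFm g) : Dfb ZFm (fun M v => Le (f M v) (g M v)) :=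
  Dfb.at2 (P := fun _ x y => Le x y) hBa.2.2.2.2.2.2.2.2.2.2.2.1 hf hg

theorem dfb_tr : Dfb ZFm (fun _ v => Tr (v 0)) := by
  refine (Dfb.ball (R := fun _ u => lS (u 0) ⊆ u 1) ktr_zfm (Tm.var 0) ?_).congr
    fun M k v hv => Iff.rfl
  exact Dfb.subset (tm_lS hBa (Tm.var 0)) (Tm.var 1)

end

/-- `z` is a pair -/
def IsP (z : V) : Prop := z = ZFSet.pair (fst z) (snd z)

theorem dfb_isP (hf : Tm ZFm f) : Dfb ZFm (fun M v => IsP (f M v)) :=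
  Dfb.eq hf (Tm.pair (Tm.fst hf) (Tm.snd hf))

theorem isP_pair (q b : V) : IsP (ZFSet.pair q b) := by
  unfold IsP
  rw [fst_pair, snd_pair]

theorem dfb_sub (hAF : T_AF) (hBa : T_BBa) : Dfb ZFm (fun _ v =>
    ∀ z ∈ v 2, ∃ q ∈ Pos (v 0) (v 1), ∃ b ∈ sq, z = ZFSet.pair q b) := by
  refine (Dfb.ball (R := fun _ u => ∃ q ∈ Pos (u 1) (u 2), ∃ b ∈ sq, u 0 = ZFSet.pair q b) ktr_zfm
    (Tm.var 2) ?_).congr fun M k v hv => Iff.rfl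
  refine (Dfb.bex (R := fun _ u => ∃ b ∈ sq, u 1 = ZFSet.pair (u 0) b) ktr_zfm
    (tm_pos hBa (Tm.var 1) (Tm.var 2)) ?_).congr fun M k v hv => Iff.rfl
  refine (Dfb.bex (R := fun _ u => u 2 = ZFSet.pair (u 1) (u 0)) ktr_zfm
    hAF.2.2.1 ?_).congr fun M k v hv => Iff.rfl
  exact Dfb.eq (Tm.var 2) (Tm.pair (Tm.var 1) (Tm.var 0))

theorem dfb_mono (hBa : T_BBa) : Dfb ZFm (fun _ v =>
    ∀ q b, ZFSet.pair q b ∈ v 2 → ∀ q' ∈ Pos (v 0) (v 1), Le q' q → ZFSet.pair q' b ∈ v 2) := by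
  have h1 : Dfb ZFm (fun _ v => ∀ z ∈ v 2, IsP z → ∀ q' ∈ Pos (v 0) (v 1), Le q' (fst z) →
      ZFSet.pair q' (snd z) ∈ v 2) := by
    refine (Dfb.ball (R := fun _ u => IsP (u 0) → ∀ q' ∈ Pos (u 1) (u 2), Le q' (fst (u 0)) →
      ZFSet.pair q' (snd (u 0)) ∈ u 3) ktr_zfm (Tm.var 2) ?_).congr fun M k v hv => Iff.rfl
    refine (dfb_isP (Tm.var 0)).imp ?_
    refine (Dfb.ball (R := fun _ u => Le (u 0) (fst (u 1)) →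
      ZFSet.pair (u 0) (snd (u 1)) ∈ u 4) ktr_zfm (tm_pos hBa (Tm.var 1) (Tm.var 2)) ?_).congr
      fun M k v hv => Iff.rfl
    exact (dfb_le hBa (Tm.var 0) (Tm.fst (Tm.var 1))).imp
      (Dfb.pairMem (Tm.var 0) (Tm.snd (Tm.var 1)) (Tm.var 4))
  refine h1.congr fun M k v hv => ⟨fun h q b hqb q' hq' hle => ?_, fun h z hz hP q' hq' hle => ?_⟩
  · have := h _ hqb (isP_pair q b) q' hq'
    rw [fst_pair, snd_pair] at this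
    exact this hle
  · exact h (fst z) (snd z) (hP ▸ hz) q' hq' hle

theorem dfb_den (hBa : T_BBa) : Dfb ZFm (fun _ v =>
    ∀ n ∈ om, ∀ q ∈ Pos (v 0) (v 1), ∃ q' ∈ Pos (v 0) (v 1), Le q' q ∧
      ∃ b, dm b = n ∧ ZFSet.pair q' b ∈ v 2) := by
  have h1 : Dfb ZFm (fun _ v =>
      ∀ n ∈ om, ∀ q ∈ Pos (v 0) (v 1), ∃ q' ∈ Pos (v 0) (v 1), Le q' q ∧
      ∃ z ∈ v 2, z = ZFSet.pair q' (snd z) ∧ dm (snd z) = n) := by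
    refine (Dfb.ball (R := fun _ u => ∀ q ∈ Pos (u 1) (u 2), ∃ q' ∈ Pos (u 1) (u 2), Le q' q ∧
      ∃ z ∈ u 3, z = ZFSet.pair q' (snd z) ∧ dm (snd z) = u 0) ktr_zfm Tm.om ?_).congr
      fun M k v hv => Iff.rfl
    refine (Dfb.ball (R := fun _ u => ∃ q' ∈ Pos (u 2) (u 3), Le q' (u 0) ∧
      ∃ z ∈ u 4, z = ZFSet.pair q' (snd z) ∧ dm (snd z) = u 1) ktr_zfm
      (tm_pos hBa (Tm.var 1) (Tm.var 2)) ?_).congr fun M k v hv => Iff.rfl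
    refine (Dfb.bex (R := fun _ u => Le (u 0) (u 1) ∧
      ∃ z ∈ u 5, z = ZFSet.pair (u 0) (snd z) ∧ dm (snd z) = u 2) ktr_zfm
      (tm_pos hBa (Tm.var 2) (Tm.var 3)) ?_).congr fun M k v hv => Iff.rfl
    refine (dfb_le hBa (Tm.var 0) (Tm.var 1)).and ?_
    refine (Dfb.bex (R := fun _ u => u 0 = ZFSet.pair (u 1) (snd (u 0)) ∧ dm (snd (u 0)) = u 3)
      ktr_zfm (Tm.var 5) ?_).congr fun M k v hv => Iff.rfl
    exact (Dfb.eq (Tm.var 0) (Tm.pair (Tm.var 1) (Tm.snd (Tm.var 0)))).and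
      (Dfb.eq (Tm.dm (Tm.snd (Tm.var 0))) (Tm.var 3))
  refine h1.congr fun M k v hv => ?_
  refine forall_congr' fun n => imp_congr_right fun hn => forall_congr' fun q =>
    imp_congr_right fun hq => exists_congr fun q' => and_congr_right fun hq' =>
    and_congr_right fun hle => ?_
  constructor
  · rintro ⟨z, hz, hz1, hz2⟩
    exact ⟨snd z, hz2, hz1 ▸ hz⟩
  · rintro ⟨b, hb, hqb⟩
    exact ⟨_, hqb, by rw [snd_pair], by rw [snd_pair]; exact hb⟩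

theorem dfb_uni : Dfb ZFm (fun _ v =>
    ∀ q b b', ZFSet.pair q b ∈ v 2 → ZFSet.pair q b' ∈ v 2 → dm b = dm b' → b = b') := by
  have h1 : Dfb ZFm (fun _ v => ∀ z ∈ v 2, ∀ z' ∈ v 2, IsP z → z' = ZFSet.pair (fst z) (snd z') →
      dm (snd z) = dm (snd z') → snd z = snd z') := by
    refine (Dfb.ball (R := fun _ u => ∀ z' ∈ u 3, IsP (u 0) →
      z' = ZFSet.pair (fst (u 0)) (snd z') → dm (snd (u 0)) = dm (snd z') →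
      snd (u 0) = snd z') ktr_zfm (Tm.var 2) ?_).congr fun M k v hv => Iff.rfl
    refine (Dfb.ball (R := fun _ u => IsP (u 1) →
      u 0 = ZFSet.pair (fst (u 1)) (snd (u 0)) → dm (snd (u 1)) = dm (snd (u 0)) →
      snd (u 1) = snd (u 0)) ktr_zfm (Tm.var 3) ?_).congr fun M k v hv => Iff.rfl
    exact (dfb_isP (Tm.var 1)).imp
      ((Dfb.eq (Tm.var 0) (Tm.pair (Tm.fst (Tm.var 1)) (Tm.snd (Tm.var 0)))).imp
      ((Dfb.eq (Tm.dm (Tm.snd (Tm.var 1))) (Tm.dm (Tm.snd (Tm.var 0)))).imp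
      (Dfb.eq (Tm.snd (Tm.var 1)) (Tm.snd (Tm.var 0)))))
  refine h1.congr fun M k v hv => ⟨fun h q b b' h1 h2 h3 => ?_, fun h z hz z' hz' hP h1 h2 => ?_⟩
  · have := h _ h1 _ h2 (isP_pair q b)
    rw [fst_pair, snd_pair, snd_pair] at this
    exact this rfl h3
  · exact h (fst z) (snd z) (snd z') (hP ▸ hz) (h1 ▸ hz') h2

theorem dfb_ini (hAI : T_AI) : Dfb ZFm (fun _ v =>
    ∀ q b, ZFSet.pair q b ∈ v 2 → ∀ n ∈ dm b, ZFSet.pair q (rs b n) ∈ v 2) := by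
  have h1 : Dfb ZFm (fun _ v => ∀ z ∈ v 2, IsP z → ∀ n ∈ dm (snd z),
      ZFSet.pair (fst z) (rs (snd z) n) ∈ v 2) := by
    refine (Dfb.ball (R := fun _ u => IsP (u 0) → ∀ n ∈ dm (snd (u 0)),
      ZFSet.pair (fst (u 0)) (rs (snd (u 0)) n) ∈ u 3) ktr_zfm (Tm.var 2) ?_).congr
      fun M k v hv => Iff.rfl
    refine (dfb_isP (Tm.var 0)).imp ?_
    refine (Dfb.ball (R := fun _ u => ZFSet.pair (fst (u 1)) (rs (snd (u 1)) (u 0)) ∈ u 4) ktr_zfm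
      (Tm.dm (Tm.snd (Tm.var 0))) ?_).congr fun M k v hv => Iff.rfl
    exact Dfb.pairMem (Tm.fst (Tm.var 1))
      (Tm.at2 (F := fun _ x y => rs x y) hAI.2.1 (Tm.snd (Tm.var 1)) (Tm.var 0)) (Tm.var 4)
  refine h1.congr fun M k v hv => ⟨fun h q b hqb n hn => ?_, fun h z hz hP n hn => ?_⟩
  · have := h _ hqb (isP_pair q b) n
    rw [fst_pair, snd_pair] at this
    exact this hn
  · exact h (fst z) (snd z) (hP ▸ hz) n hn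

theorem dfb_ful (hAF : T_AF) (hBa : T_BBa) : Dfb ZFm (fun _ v =>
    ∀ q ∈ Pos (v 0) (v 1), ∀ b ∈ sq, (∀ q' ∈ Pos (v 0) (v 1), Le q' q →
      ∃ q'' ∈ Pos (v 0) (v 1), Le q'' q' ∧ ZFSet.pair q'' b ∈ v 2) → ZFSet.pair q b ∈ v 2) := by
  refine (Dfb.ball (R := fun _ u => ∀ b ∈ sq, (∀ q' ∈ Pos (u 1) (u 2), Le q' (u 0) →
      ∃ q'' ∈ Pos (u 1) (u 2), Le q'' q' ∧ ZFSet.pair q'' b ∈ u 3) → ZFSet.pair (u 0) b ∈ u 3)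
      ktr_zfm (tm_pos hBa (Tm.var 0) (Tm.var 1)) ?_).congr fun M k v hv => Iff.rfl
  refine (Dfb.ball (R := fun _ u => (∀ q' ∈ Pos (u 2) (u 3), Le q' (u 1) →
      ∃ q'' ∈ Pos (u 2) (u 3), Le q'' q' ∧ ZFSet.pair q'' (u 0) ∈ u 4) →
      ZFSet.pair (u 1) (u 0) ∈ u 4) ktr_zfm hAF.2.2.1 ?_).congr fun M k v hv => Iff.rfl
  refine Dfb.imp ?_ (Dfb.pairMem (Tm.var 1) (Tm.var 0) (Tm.var 4))
  refine (Dfb.ball (R := fun _ u => Le (u 0) (u 2) →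
      ∃ q'' ∈ Pos (u 3) (u 4), Le q'' (u 0) ∧ ZFSet.pair q'' (u 1) ∈ u 5) ktr_zfm
      (tm_pos hBa (Tm.var 2) (Tm.var 3)) ?_).congr fun M k v hv => Iff.rfl
  refine (dfb_le hBa (Tm.var 0) (Tm.var 2)).imp ?_
  refine (Dfb.bex (R := fun _ u => Le (u 0) (u 1) ∧ ZFSet.pair (u 0) (u 2) ∈ u 6) ktr_zfm
      (tm_pos hBa (Tm.var 3) (Tm.var 4)) ?_).congr fun M k v hv => Iff.rfl
  exact (dfb_le hBa (Tm.var 0) (Tm.var 1)).and (Dfb.pairMem (Tm.var 0) (Tm.var 2) (Tm.var 6))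

theorem dfb_nam0 (hAF : T_AF) (hAI : T_AI) (hBa : T_BBa) :
    Dfb ZFm (fun _ v => Nam (v 0) (v 1) (v 2)) := by
  refine ((dfb_sub hAF hBa).and ((dfb_mono hBa).and ((dfb_den hBa).and (dfb_uni.and
    ((dfb_ini hAI).and (dfb_ful hAF hBa)))))).congr fun M k v hv => ?_
  exact ⟨fun h => ⟨h.1, h.2.1, h.2.2.1, h.2.2.2.1, h.2.2.2.2.1, h.2.2.2.2.2⟩,
    fun h => ⟨h.sub, h.mono, h.den, h.uni, h.ini, h.ful⟩⟩

theorem dfb_nam (hAF : T_AF) (hAI : T_AI) (hBa : T_BBa) (hf : Tm ZFm f) (hg : Tm ZFm g)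
    (hh : Tm ZFm h) : Dfb ZFm (fun M v => Nam (f M v) (g M v) (h M v)) :=
  Dfb.at3 (P := fun _ x y z => Nam x y z) (dfb_nam0 hAF hAI hBa) hf hg hh

theorem tm_lab0 (hBa : T_BBa) : Tm ZFm (fun _ v => lab (lE (v 1)) (lG (v 1)) (lS (v 1)) (lY (v 1))
    (lZ (v 1)) (lA (v 1)) (lB (v 1))) :=
  Tm.pair (tm_lE hBa (Tm.var 1)) (Tm.pair (tm_lG hBa (Tm.var 1)) (Tm.pair (tm_lS hBa (Tm.var 1))
    (Tm.pair (tm_lY hBa (Tm.var 1)) (Tm.pair (tm_lZ hBa (Tm.var 1)) (Tm.pair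
    (tm_lA hBa (Tm.var 1)) (tm_lB hBa (Tm.var 1)))))))

theorem dfb_lab0 (hAF : T_AF) (hAI : T_AI) (hBa : T_BBa) :
    Dfb ZFm (fun _ v => Lab (v 0) (v 1)) := by
  have h1 : Dfb ZFm (fun _ v => v 1 = lab (lE (v 1)) (lG (v 1)) (lS (v 1)) (lY (v 1))
    (lZ (v 1)) (lA (v 1)) (lB (v 1))) := Dfb.eq (Tm.var 1) (tm_lab0 hBa)
  have h2 : Dfb ZFm (fun _ v => lE (v 1) = nS 0 ∨ lE (v 1) = nS 1 ∨ lE (v 1) = nS 2) :=
    (Dfb.eq (tm_lE hBa (Tm.var 1)) (Tm.nS 0)).or ((Dfb.eq (tm_lE hBa (Tm.var 1)) (Tm.nS 1)).or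
      (Dfb.eq (tm_lE hBa (Tm.var 1)) (Tm.nS 2)))
  have h3 : Dfb ZFm (fun _ v => Tr (lS (v 1))) :=
    Dfb.at1 (P := fun _ x => Tr x) (dfb_tr hBa) (tm_lS hBa (Tm.var 1))
  have hn : ∀ {f : (V → Prop) → (ℕ → V) → V}, Tm ZFm f →
      Dfb ZFm (fun M v => Nam (v 0) (lS (v 1)) (f M v)) := fun hf =>
    dfb_nam hAF hAI hBa (Tm.var 0) (tm_lS hBa (Tm.var 1)) hf
  refine (h1.and (h2.and (h3.and ((hn (tm_lY hBa (Tm.var 1))).and ((hn (tm_lZ hBa (Tm.var 1))).and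
    ((hn (tm_lA hBa (Tm.var 1))).and (hn (tm_lB hBa (Tm.var 1))))))))).congr fun M k v hv => ?_
  exact ⟨fun h => ⟨h.1, h.2.1, h.2.2.1, h.2.2.2.1, h.2.2.2.2.1, h.2.2.2.2.2.1, h.2.2.2.2.2.2⟩,
    fun h => ⟨h.eq, h.e, h.tr, h.y, h.z, h.a, h.b⟩⟩

theorem dfb_cld0 (hAF : T_AF) (hAI : T_AI) (hBa : T_BBa) :
    Dfb ZFm (fun _ v => Cld (v 0) (v 1)) := by
  refine (Dfb.ball (R := fun _ u => Lab (u 1) (u 0) ∧ lS (u 0) ⊆ u 2) ktr_zfm (Tm.var 1) ?_).congr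
    fun M k v hv => Iff.rfl
  exact (Dfb.at2 (P := fun _ x y => Lab x y) (dfb_lab0 hAF hAI hBa) (Tm.var 1) (Tm.var 0)).and
    (Dfb.subset (tm_lS hBa (Tm.var 0)) (Tm.var 2))

theorem tm_ev0 (hAF : T_AF) : Tm ZFm (fun _ v => ev (v 0) (v 1)) := by
  refine Tm.sUnion (f := fun _ v => sq.sep fun b => ∃ q ∈ v 0, ZFSet.pair q b ∈ v 1) ?_
  refine (Tm.sep (R := fun _ u => ∃ q ∈ u 1, ZFSet.pair q (u 0) ∈ u 2) ?_ hAF.2.2.1).congr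
    fun M k v hv => rfl
  refine (Dfb.bex (R := fun _ u => ZFSet.pair (u 0) (u 1) ∈ u 3) ktr_zfm (Tm.var 1) ?_).congr
    fun M k v hv => Iff.rfl
  exact Dfb.pairMem (Tm.var 0) (Tm.var 1) (Tm.var 3)

theorem tm_ev (hAF : T_AF) (hf : Tm ZFm f) (hg : Tm ZFm g) :
    Tm ZFm (fun M v => ev (f M v) (g M v)) :=
  Tm.at2 (F := fun _ x y => ev x y) (tm_ev0 hAF) hf hg

theorem tm_cg0 (hAF : T_AF) : Tm ZFm (fun _ v => cg (v 0) (v 1)) := by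
  refine Tm.sUnion (f := fun _ v => sq.sep fun b => ∃ p ∈ v 0, v 1 ∈ dm p ∧
    fst (app p (v 1)) = b) ?_
  refine (Tm.sep (R := fun _ u => ∃ p ∈ u 1, u 2 ∈ dm p ∧ fst (app p (u 2)) = u 0) ?_
    hAF.2.2.1).congr fun M k v hv => rfl
  refine (Dfb.bex (R := fun _ u => u 3 ∈ dm (u 0) ∧ fst (app (u 0) (u 3)) = u 1) ktr_zfm
    (Tm.var 1) ?_).congr fun M k v hv => Iff.rfl
  exact (Dfb.mem (Tm.var 3) (Tm.dm (Tm.var 0))).and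
    (Dfb.eq (Tm.fst (Tm.app (Tm.var 0) (Tm.var 3))) (Tm.var 1))

theorem tm_cg (hAF : T_AF) (hf : Tm ZFm f) (hg : Tm ZFm g) :
    Tm ZFm (fun M v => cg (f M v) (g M v)) :=
  Tm.at2 (F := fun _ x y => cg x y) (tm_cg0 hAF) hf hg

theorem tm_gs0 : Tm ZFm (fun _ v => gs (v 0) (v 1)) := by
  refine (Tm.sep (R := fun _ u => dm (u 0) ⊆ u 2) ?_ (Tm.var 0)).congr fun M k v hv => rfl
  exact Dfb.subset (Tm.dm (Tm.var 0)) (Tm.var 2)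

theorem dfb_pro0 (hAF : T_AF) (hAI : T_AI) (hBa : T_BBa) :
    Dfb ZFm (fun _ v => Pro (v 0) (v 1) (v 2)) := by
  refine (Dfb.bex (R := fun _ u => ev (u 2) (lZ (u 0)) ≠ kc 0 ∧
    u 3 = prl (ev (u 2) (lZ (u 0))) (cg (u 2) (u 0))) ktr_zfm (Tm.var 0) ?_).congr
    fun M k v hv => Iff.rfl
  exact ((Dfb.eq (tm_ev hAF (Tm.var 2) (tm_lZ hBa (Tm.var 0))) (hAI.2.2.2.1 0)).not).and
    (Dfb.eq (Tm.var 3) (Tm.at2 (F := fun _ x y => prl x y) hAI.2.2.1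
      (tm_ev hAF (Tm.var 2) (tm_lZ hBa (Tm.var 0))) (tm_cg hAF (Tm.var 2) (Tm.var 0))))

theorem dfb_resp0 (hAF : T_AF) (hAI : T_AI) (hBa : T_BBa) :
    Dfb ZFm (fun _ v => Resp (v 0) (v 1) (v 2)) := by
  refine (Dfb.ball (R := fun _ u => ¬ Pro (u 1) (u 3) (ev (u 3) (lY (u 0)))) ktr_zfm
    (Tm.var 1) ?_).congr fun M k v hv => Iff.rfl
  exact (Dfb.at3 (P := fun _ x y z => Pro x y z) (dfb_pro0 hAF hAI hBa) (Tm.var 1) (Tm.var 3)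
    (tm_ev hAF (Tm.var 3) (tm_lY hBa (Tm.var 0)))).not

theorem tm_cn0 (hAF : T_AF) (hBa : T_BBa) : Tm ZFm (fun _ v => cn (v 0) (v 1) (v 2)) := by
  refine (Tm.sep (R := fun _ u => snd (u 0) = ∅ ∨ (u 3 ∈ dm (fst (u 0)) ∧
    snd (u 0) ⊆ fst (app (fst (u 0)) (u 3)))) ?_
    (Tm.prod (tm_pos hBa (Tm.var 0) (Tm.var 1)) hAF.2.2.1)).congr fun M k v hv => rfl
  exact (Dfb.eq (Tm.snd (Tm.var 0)) Tm.empty).or
    ((Dfb.mem (Tm.var 3) (Tm.dm (Tm.fst (Tm.var 0)))).and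
      (Dfb.subset (Tm.snd (Tm.var 0)) (Tm.fst (Tm.app (Tm.fst (Tm.var 0)) (Tm.var 3)))))

end SE.BBbAux

namespace SE

open SF BBbAux

theorem pf_BBb (hAF : T_AF) (hAI : T_AI) (hBa : T_BBa) : T_BBb :=
  ⟨dfb_nam0 hAF hAI hBa, dfb_lab0 hAF hAI hBa, dfb_cld0 hAF hAI hBa, dfb_tr hBa, tm_ev0 hAF,
    tm_cg0 hAF, tm_gs0, dfb_pro0 hAF hAI hBa, dfb_resp0 hAF hAI hBa, tm_cn0 hAF hBa⟩

end SE
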