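import Pool.Agent.H38.SE.TarC

/-!
# MP_eaeaf5_lc, CC: the coded reals
-/

set_option linter.unusedVariables false

open Ordinal Order Set
open scoped ZFSet

namespace SE

open SF

theorem cc_fst {M : V → Prop} (k : ZFm M) {x : V} (hx : M x) : M (fst x) :=
  (Tm.fst (Tm.var 0)).1 M k (fun _ => x) (fun _ => hx)

theorem cc_snd {M : V → Prop} (k : ZFm M) {x : V} (hx : M x) : M (snd x) :=
  (Tm.snd (Tm.var 0)).1 M k (fun _ => x) (fun _ => hx)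

theorem pf_CC (hAG : T_AG) (hBK : T_BK) (hCB : T_CB) : T_CC := by
  intro D hD ρ G hρ hcl hG t ht htR
  have k : ZFm D.N := hD.zfc.toZFCm.toZFm
  obtain ⟨b1, b2⟩ := hBK D hD ρ G hρ hcl hG
  constructor
  · rintro ⟨f, hf, hfR, hft, hfl⟩
    obtain ⟨i, hi, hfi⟩ := hCB D hD ρ G hρ hcl hG f hf hfR hfl
    refine ⟨i, hi, ?_⟩
    have hiN : D.N i := k.trans _ hρ _ hi
    have hsN : D.N (lS i) := cc_fst k (cc_snd k (cc_snd k hiN))
    have hyN : D.N (lY i) := cc_fst k (cc_snd k (cc_snd k (cc_snd k hiN)))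
    obtain ⟨hLab, hsub⟩ := hcl i hi
    have hev : Rl (ev G (lY i)) := (b1 (lS i) (lY i) hsN hsub hLab.tr hyN hLab.y).1
    refine hAG.2.2.2.1 t (ev G (lY i)) htR hev ?_
    intro n
    obtain ⟨m, hnm, hm⟩ := hfi n
    refine ⟨m, hnm, ?_⟩
    obtain ⟨j, _, hj⟩ := hft (nS m) (mem_om.2 ⟨m, rfl⟩)
    obtain ⟨j', _, hj'⟩ := (b2 i hi).2.2.2.2.2.1 (nS m) (mem_om.2 ⟨m, rfl⟩)
    rw [hj, hj'] at hm
    exact (ZFSet.pair_inj.1 hm).1
  · rintro ⟨i, hi, rfl⟩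
    obtain ⟨c1, c2, -, -, -, c3, c4⟩ := b2 i hi
    exact ⟨cg G i, c2, c1, c3, c4⟩

end SE
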