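import Pool.Agent.H4.SE.Targets

/-!
# Module ID of the board sae_modules (MP_45b854_al)

The larger system determines the smaller one, good coupling.
-/

set_option autoImplicit false

open Finset Equiv
open scoped Classical

namespace Pool.Agent.H54.SE.ID

theorem ias {α : Type} (f : Perm α) (x : α) : f⁻¹ (f x) = x := f.symm_apply_apply x

theorem ais {α : Type} (f : Perm α) (x : α) : f (f⁻¹ x) = x := f.apply_symm_apply x

open Pool.Agent.H4.SE
open Pool.Agent.H11.SAE (lp act verts)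

variable {r d : ℕ}

theorem pp_ge {β : Type} (σ : Fin r → Perm β) (T : List (Fin r × Bool)) (k : ℕ)
    (hk : T.length ≤ k) : pp σ T k = pp σ T T.length := by
  induction k with
  | zero =>
    have : T.length = 0 := by omega
    rw [this]
  | succ k ih =>
    rcases Nat.lt_or_ge k T.length with h | h
    · have : k + 1 = T.length := by omega
      rw [this]
    · rw [← ih h]
      have h1 : T[k]? = none := List.getElem?_eq_none h
      show (match T[k]? with
        | some x => lp σ x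
        | none => 1) * pp σ T k = pp σ T k
      rw [h1]
      simp

theorem pt_eq {k : ℕ} {β : Type} {T : Fin d → List (Fin r × Bool)} {ω : Oh r k β}
    (h : Good T ω) (i : Fin r) : (ω.2.1 i).1 = some (pt ω i) := by
  have h1 := h.o i
  unfold pt
  cases h2 : (ω.2.1 i).1 with
  | none => exact absurd h2 h1
  | some v => rfl

theorem c_eq {k : ℕ} {β : Type} {T : Fin d → List (Fin r × Bool)} {ω : Oh r k β}
    (h : Good T ω) (m : Fin k) : (ω.2.2 m).1 = some ((sml ω).2 m) := by
  have h1 := h.c m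
  show (ω.2.2 m).1 = some ((ω.2.2 m).1.getD (ω.2.2 m).2)
  cases h2 : (ω.2.2 m).1 with
  | none => exact absurd h2 h1
  | some v => rfl

theorem zz_none {β : Type} (T : Fin d → List (Fin r × Bool)) (σ : Fin r → Perm β)
    (p : Fin r → β) (j : Fin d) (k : ℕ) (hk : (T j).length ≤ k) : ZZ T σ p (j, k) = none := by
  have h1 : (T j)[k]? = none := List.getElem?_eq_none hk
  simp [ZZ, lb, h1]

theorem zz_some {β : Type} (T : Fin d → List (Fin r × Bool)) (σ : Fin r → Perm β)
    (p : Fin r → β) (j : Fin d) (k : ℕ) (hk : k < (T j).length) :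
    ∃ s, ZZ T σ p (j, k) = some s := by
  have h1 : (T j)[k]? = some ((T j)[k]) := List.getElem?_eq_getElem hk
  exact ⟨(pp σ (T j) (rt T (j, k)))⁻¹ (p ((T j)[k]).1), by simp [ZZ, lb, h1]⟩

theorem zz_eq (hIG : T_IG) {k : ℕ} {β : Type} [DecidableEq β] {T : Fin d → List (Fin r × Bool)}
    {ω : Oh r k β} (h : Good T ω) (j : Fin d) (l : ℕ) :
    ZZ T ω.1 (pt ω) (j, l) = if l < (T j).length then pat T (big ω).1 none j (l + 1)
      else none := by
  by_cases hl : l < (T j).length
  · rw [if_pos hl]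
    obtain ⟨s, hs⟩ := zz_some T ω.1 (pt ω) j l hl
    obtain ⟨h1, -, -⟩ := hIG r d T β ω.1 (fun i => (ω.2.1 i).1) (pt ω) (pt_eq h) j (h.s j)
    have h2 := h1 l s hl hs
    rw [hs]
    show some s = (pp (ins ω.1 fun i => (ω.2.1 i).1) (T j) (l + 1))⁻¹ none
    rw [← h2, ias]
  · rw [if_neg hl]
    exact zz_none T _ _ j l (not_lt.mp hl)

theorem w_cases (hIO : T_IO) {k : ℕ} {β : Type} [DecidableEq β]
    {T : Fin d → List (Fin r × Bool)} {ω : Oh r k β} (h : Good T ω) (j : Fin d) (s : β) :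
    (∀ l < (T j).length, ZZ T ω.1 (pt ω) (j, l) ≠ some s) →
      W T (big ω).1 j (some s) = some (W T ω.1 j s) := by
  intro hn
  exact hIO r d T β ω.1 (fun i => (ω.2.1 i).1) (pt ω)
    (fun i s hs => by rw [pt_eq h i] at hs; exact Option.some.inj hs) j s (T j).length le_rfl hn
    (T j).length le_rfl

theorem w_zero (hIG : T_IG) {k : ℕ} {β : Type} [DecidableEq β]
    {T : Fin d → List (Fin r × Bool)} {ω : Oh r k β} (h : Good T ω) (j : Fin d) (s : β)
    (hl : 0 < (T j).length) (hs : ZZ T ω.1 (pt ω) (j, 0) = some s) :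
    W T (big ω).1 j none = some (W T ω.1 j s) := by
  obtain ⟨-, h1, -⟩ := hIG r d T β ω.1 (fun i => (ω.2.1 i).1) (pt ω) (pt_eq h) j (h.s j)
  exact h1 s hs (T j).length hl le_rfl

theorem w_succ (hIG : T_IG) {k : ℕ} {β : Type} [DecidableEq β]
    {T : Fin d → List (Fin r × Bool)} {ω : Oh r k β} (h : Good T ω) (j : Fin d) (l : ℕ) (s s' : β)
    (hl : l + 1 < (T j).length) (hs : ZZ T ω.1 (pt ω) (j, l) = some s)
    (hs' : ZZ T ω.1 (pt ω) (j, l + 1) = some s') :
    W T (big ω).1 j (some s) = some (W T ω.1 j s') := by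
  obtain ⟨-, -, h1⟩ := hIG r d T β ω.1 (fun i => (ω.2.1 i).1) (pt ω) (pt_eq h) j (h.s j)
  exact h1 l s s' hl hs hs' (T j).length (by omega) le_rfl

theorem pat_big (hIO : T_IO) {k : ℕ} {β : Type} [DecidableEq β]
    {T : Fin d → List (Fin r × Bool)} {ω : Oh r k β} (h : Good T ω) (m : Fin k) (j : Fin d)
    (l : ℕ) (hl : l ≤ (T j).length) :
    pat T (big ω).1 ((big ω).2 m) j l = some (pat T (sml ω).1 ((sml ω).2 m) j l) := by
  have h1 : (big ω).2 m = some ((sml ω).2 m) := c_eq h m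
  rw [h1]
  have h2 := hIO r d T β ω.1 (fun i => (ω.2.1 i).1) (pt ω)
    (fun i s hs => by rw [pt_eq h i] at hs; exact Option.some.inj hs) j
    ((pp ω.1 (T j) l)⁻¹ ((sml ω).2 m)) l hl (fun k' hk' => h.q m j l k' hk' hl) l le_rfl
  rw [ais] at h2
  show (pp (ins ω.1 fun i => (ω.2.1 i).1) (T j) l)⁻¹ (some ((sml ω).2 m)) =
    some ((pp ω.1 (T j) l)⁻¹ ((sml ω).2 m))
  rw [← h2, ias]

theorem pf_ID (hIO : T_IO) (hIG : T_IG) : T_ID := by
  intro r d T k β _ ω ω' hg hg' hW hP
  have hZ : ZZ T ω.1 (pt ω) = ZZ T ω'.1 (pt ω') := by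
    funext e
    obtain ⟨j, l⟩ := e
    rw [zz_eq hIG hg j l, zz_eq hIG hg' j l, hP]
  refine ⟨?_, hZ⟩
  have hW1 : W T (big ω).1 = W T (big ω').1 := congrArg Prod.fst hW
  have hW2 : ∀ m, pat T (big ω).1 ((big ω).2 m) = pat T (big ω').1 ((big ω').2 m) :=
    fun m => congrFun (congrArg Prod.snd hW) m
  have e1 : W T ω.1 = W T ω'.1 := by
    funext j
    apply Equiv.ext
    intro s
    apply Option.some.inj
    by_cases hn : ∀ l < (T j).length, ZZ T ω.1 (pt ω) (j, l) ≠ some s
    · rw [← w_cases hIO hg j s hn, ← w_cases hIO hg' j s (by rw [← hZ]; exact hn), hW1]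
    · push Not at hn
      obtain ⟨l, hl, hs⟩ := hn
      cases l with
      | zero =>
        rw [← w_zero hIG hg j s hl hs, ← w_zero hIG hg' j s hl (by rw [← hZ]; exact hs), hW1]
      | succ l =>
        obtain ⟨s0, hs0⟩ := zz_some T ω.1 (pt ω) j l (by omega)
        rw [← w_succ hIG hg j l s0 s hl hs0 hs,
          ← w_succ hIG hg' j l s0 s hl (by rw [← hZ]; exact hs0) (by rw [← hZ]; exact hs), hW1]
  have e2 : ∀ m, pat T (sml ω).1 ((sml ω).2 m) = pat T (sml ω').1 ((sml ω').2 m) := by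
    intro m
    have e3 : ∀ j l, l ≤ (T j).length → pat T (sml ω).1 ((sml ω).2 m) j l =
        pat T (sml ω').1 ((sml ω').2 m) j l := by
      intro j l hl
      apply Option.some.inj
      rw [← pat_big hIO hg m j l hl, ← pat_big hIO hg' m j l hl, hW2 m]
    funext j l
    rcases le_or_gt l (T j).length with hl | hl
    · exact e3 j l hl
    · have e4 := e3 j (T j).length le_rfl
      simp only [pat] at e4 ⊢
      rw [pp_ge _ _ l hl.le, pp_ge _ _ l hl.le]
      exact e4
  exact Prod.ext e1 (funext e2)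

end Pool.Agent.H54.SE.ID
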